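import Mathlib
import Pool.Agent.TH860.LP.Rel2
import Pool.Agent.TH53.HR5

/-!
# Vandermonde determinants modulo `q` with exceptional points, relative to an arbitrary field
-/

set_option autoImplicit false

open Polynomial Finset Module

namespace Pool.Agent.V1156.RL

open Pool.Agent.TH53.HR Pool.Agent.TH53.SL Pool.Agent.H388SL Pool.Agent.H389R3.LR
  Pool.Agent.H389R3.LP Pool.Agent.TH860.LP

/-- an element of all valuation rings of `ℂ` that contain the algebraic integers is an algebraic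
integer -/
lemma integral_of_forall (y : ℂ)
    (h : ∀ V : ValuationSubring ℂ, (∀ z : ℂ, IsIntegral ℤ z → z ∈ V) → y ∈ V) :
    IsIntegral ℤ y := by
  by_contra hcon
  have hx : y ∉ (integralClosure ℤ ℂ).toSubring := hcon
  have : IsIntegrallyClosedIn (integralClosure ℤ ℂ).toSubring ℂ :=
    inferInstanceAs (IsIntegrallyClosedIn (integralClosure ℤ ℂ) ℂ)
  obtain ⟨V, hV, hV2⟩ := Subring.exists_le_valuationSubring_of_isIntegrallyClosedIn hx
  exact hV2 (h V fun z hz => hV hz)

variable {V : ValuationSubring ℂ}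

/-- the auxiliary polynomials -/
noncomputable def auxQ (N : ℕ) (v : Fin N → ℂ) (H : Finset (Fin N)) (F : ℂ[X]) (m : ℕ) : ℂ[X] :=
  if H.card ≤ m then (∏ u ∈ H, (X - C (v u))) *
    (X ^ ((m - H.card) % F.natDegree) * F ^ ((m - H.card) / F.natDegree)) else X ^ m

lemma auxQ_monic {N : ℕ} (v : Fin N → ℂ) (H : Finset (Fin N)) {F : ℂ[X]} (hF : F.Monic)
    (m : ℕ) : (auxQ N v H F m).Monic := by
  unfold auxQ
  split_ifs
  · exact (monic_prod_of_monic _ _ fun u _ => monic_X_sub_C _).mul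
      ((monic_X_pow _).mul (hF.pow _))
  · exact monic_X_pow m

lemma auxQ_natDegree {N : ℕ} (v : Fin N → ℂ) (H : Finset (Fin N)) {F : ℂ[X]} (hF : F.Monic)
    (m : ℕ) : (auxQ N v H F m).natDegree = m := by
  unfold auxQ
  split_ifs with h
  · rw [(monic_prod_of_monic _ _ fun u _ => monic_X_sub_C _).natDegree_mul
      ((monic_X_pow _).mul (hF.pow _)), (monic_X_pow _).natDegree_mul (hF.pow _),
      natDegree_X_pow, hF.natDegree_pow,
      natDegree_prod_of_monic _ _ fun u _ => monic_X_sub_C _]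
    simp only [natDegree_X_sub_C, Finset.sum_const, smul_eq_mul, mul_one]
    rw [mul_comm ((m - H.card) / F.natDegree)]
    have h2 := Nat.mod_add_div (m - H.card) F.natDegree
    omega
  · exact natDegree_X_pow m

lemma auxQ_eval_mem {q : ℂ} (hq : q ≠ 0) {N : ℕ} (v : Fin N → ℂ) (hv : ∀ i, v i ∈ V)
    (H : Finset (Fin N)) (F : ℂ[X]) (hF : ∀ i, i ∉ H → F.eval (v i) / q ∈ V) (m : ℕ)
    (i : Fin N) :
    (auxQ N v H F m).eval (v i) / q ^ ((m - H.card) / F.natDegree) ∈ V := by
  unfold auxQ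
  split_ifs with h
  · by_cases hi : i ∈ H
    · have : (∏ u ∈ H, (X - C (v u))).eval (v i) = 0 := by
        rw [eval_prod]
        exact Finset.prod_eq_zero hi (by simp)
      rw [eval_mul, this, zero_mul, zero_div]
      exact V.zero_mem
    · have e : (((∏ u ∈ H, (X - C (v u))) *
          (X ^ ((m - H.card) % F.natDegree) * F ^ ((m - H.card) / F.natDegree))).eval (v i)) /
          q ^ ((m - H.card) / F.natDegree) =
          (∏ u ∈ H, (v i - v u)) * ((v i) ^ ((m - H.card) % F.natDegree) *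
            (F.eval (v i) / q) ^ ((m - H.card) / F.natDegree)) := by
        rw [eval_mul, eval_mul, eval_pow, eval_pow, eval_X, eval_prod, div_pow]
        simp only [eval_sub, eval_X, eval_C]
        ring
      rw [e]
      refine V.mul_mem _ _ (V.toSubring.prod_mem fun u _ => V.toSubring.sub_mem (hv i) (hv u))
        (V.mul_mem _ _ (V.toSubring.pow_mem (hv i) _) (V.toSubring.pow_mem (hF i hi) _))
  · have : (m - H.card) / F.natDegree = 0 := by
      have : m - H.card = 0 := by omega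
      rw [this]; simp
    rw [this, pow_zero, div_one, eval_pow, eval_X]
    exact V.toSubring.pow_mem (hv i) _

/-- **divisibility of the Vandermonde determinant** -/
theorem vandermonde_divQ {q : ℂ} (hq : q ≠ 0) {N : ℕ} (v : Fin N → ℂ) (hv : ∀ i, v i ∈ V)
    (H : Finset (Fin N)) (F : ℂ[X]) (hFm : F.Monic)
    (hF : ∀ i, i ∉ H → F.eval (v i) / q ∈ V) :
    (Matrix.vandermonde v).det /
      q ^ (∑ m ∈ Finset.range N, (m - H.card) / F.natDegree) ∈ V := by
  rw [Matrix.det_eval_matrixOfPolynomials_eq_det_vandermonde v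
    (fun m : Fin N => auxQ N v H F (m : ℕ)) (fun m => auxQ_natDegree v H hFm m)
    (fun m => auxQ_monic v H hFm m)]
  have e : (Matrix.of fun i j : Fin N => (auxQ N v H F (j : ℕ)).eval (v i)) =
      Matrix.of fun i j : Fin N => q ^ (((j : ℕ) - H.card) / F.natDegree) *
        (Matrix.of fun i j : Fin N => (auxQ N v H F (j : ℕ)).eval (v i) /
          q ^ (((j : ℕ) - H.card) / F.natDegree)) i j := by
    ext i j
    simp only [Matrix.of_apply]
    field_simp
  rw [e, Matrix.det_mul_row, Finset.prod_pow_eq_pow_sum,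
    Fin.sum_univ_eq_sum_range (fun m => (m - H.card) / F.natDegree) N, mul_div_assoc, mul_comm,
    div_mul_cancel₀ _ (pow_ne_zero _ hq)]
  apply det_mem
  intro i j
  exact auxQ_eval_mem hq v hv H F hF j i

/-- the Vandermonde determinant is divisible by a power of `q` in the ring of algebraic integers -/
theorem vand_int {N : ℕ} (v : Fin N → ℂ) (hint : ∀ i, IsIntegral ℤ (v i)) (F : ℂ[X])
    (hFm : F.Monic) (q : ℕ) (hq : 0 < q) (e : ℕ)
    (hval : ∀ V : ValuationSubring ℂ, (∀ z : ℂ, IsIntegral ℤ z → z ∈ V) → (q : ℂ)⁻¹ ∉ V →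
      ∃ H : Finset (Fin N), H.card ≤ e ∧ ∀ i, i ∉ H → F.eval (v i) / (q : ℂ) ∈ V) :
    IsIntegral ℤ ((Matrix.vandermonde v).det /
      (q : ℂ) ^ (∑ j ∈ Finset.range N, (j - e) / F.natDegree)) := by
  have hq0 : (q : ℂ) ≠ 0 := by exact_mod_cast hq.ne'
  apply integral_of_forall
  intro V hV
  have hdet : (Matrix.vandermonde v).det ∈ V := by
    apply det_mem
    intro i j
    rw [Matrix.vandermonde_apply]
    exact V.toSubring.pow_mem (hV _ (hint i)) _
  by_cases hinv : (q : ℂ)⁻¹ ∈ V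
  · rw [div_eq_mul_inv, ← inv_pow]
    exact V.mul_mem _ _ hdet (V.toSubring.pow_mem hinv _)
  · obtain ⟨H, hH1, hH2⟩ := hval V hV hinv
    have h1 := vandermonde_divQ hq0 v (fun i => hV _ (hint i)) H F hFm hH2
    have hqV : (q : ℂ) ∈ V := hV _ (by
      simpa using isIntegral_algebraMap (R := ℤ) (A := ℂ) (x := (q : ℤ)))
    have hle : ∑ j ∈ Finset.range N, (j - e) / F.natDegree ≤
        ∑ j ∈ Finset.range N, (j - H.card) / F.natDegree :=
      Finset.sum_le_sum fun j _ => Nat.div_le_div_right (by omega)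
    obtain ⟨k, hk⟩ := Nat.exists_eq_add_of_le hle
    rw [hk] at h1
    have h2 : (Matrix.vandermonde v).det /
        (q : ℂ) ^ (∑ j ∈ Finset.range N, (j - e) / F.natDegree) =
        (Matrix.vandermonde v).det /
        (q : ℂ) ^ (∑ j ∈ Finset.range N, (j - e) / F.natDegree + k) * (q : ℂ) ^ k := by
      rw [pow_add]
      field_simp
    rw [h2]
    exact V.mul_mem _ _ h1 (V.toSubring.pow_mem hqV _)

/-- **the determinant inequality in a number field `L`** -/
theorem core_ineq {L : Type*} [Field L] [NumberField L] {N : ℕ} (hN : 0 < N) (w : Fin N → L)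
    (hinj : Function.Injective w)
    (φ : L →ₐ[ℚ] ℂ) (t : ℕ) (ht : 0 < t) (q : ℕ) (hq : 1 < q) (e : ℕ) (he : e ≤ N)
    (hval : IsIntegral ℤ ((Matrix.vandermonde fun i => φ (w i)).det /
      (q : ℂ) ^ (∑ j ∈ Finset.range N, (j - e) / t))) :
    (finrank ℚ L : ℝ) * (((N : ℝ) - e) * ((N : ℝ) - e - 2 * t) * Real.log q) ≤
      t * (N * (finrank ℚ L * Real.log N + 2 * ∑ i, lam (w i))) := by
  classical
  set S := ∑ j ∈ Finset.range N, (j - e) / t with hS
  set Δ : L := (Matrix.vandermonde w).det with hΔ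
  have hΔ0 : Δ ≠ 0 := Matrix.det_vandermonde_ne_zero_iff.mpr hinj
  have hmap : ∀ σ : L →ₐ[ℚ] ℂ, σ Δ = (Matrix.vandermonde fun i => σ (w i)).det := by
    intro σ
    have h1 := RingHom.map_det (σ : L →+* ℂ) (Matrix.vandermonde w)
    have h2 : (σ : L →+* ℂ).mapMatrix (Matrix.vandermonde w) =
        Matrix.vandermonde fun i => σ (w i) := by
      ext i j
      simp [Matrix.vandermonde_apply]
    rw [h2] at h1
    exact h1
  rw [← hmap] at hval
  have hq0 : (q : L) ≠ 0 := by exact_mod_cast (by omega : q ≠ 0)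
  have hq0' : (q : ℂ) ≠ 0 := by exact_mod_cast (by omega : q ≠ 0)
  set y : L := Δ / (q : L) ^ S with hy
  have hyΔ : Δ = ((q ^ S : ℕ) : L) * y := by
    rw [hy]
    push_cast
    field_simp
  have hy0 : y ≠ 0 := div_ne_zero hΔ0 (pow_ne_zero _ hq0)
  have hyδ : φ y = φ Δ / (q : ℂ) ^ S := by
    rw [hy, map_div₀, map_pow, map_natCast]
  have hyint : IsIntegral ℤ y := by
    rw [← hyδ] at hval
    exact (isIntegral_algHom_iff (φ.restrictScalars ℤ) φ.toRingHom.injective).mp hval
  have h1 := pow_le_prod_norm hyint hy0 (q ^ S)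
  rw [← hyΔ] at h1
  have h2 : ∀ σ : L →ₐ[ℚ] ℂ, 2 * Real.log ‖σ Δ‖ ≤
      N * Real.log N + 2 * ((N : ℝ) - 1) * ∑ i, Real.log (max 1 ‖σ (w i)‖) := by
    intro σ
    have h3 := vandermonde_le (fun i => σ (w i))
    rw [← hmap] at h3
    have hσ : 0 < ‖σ Δ‖ := norm_pos_iff.mpr ((map_ne_zero_iff σ σ.toRingHom.injective).mpr hΔ0)
    have h5 := Real.log_le_log (by positivity) h3
    have hmax : ∀ i, (0:ℝ) < max 1 ‖σ (w i)‖ := fun i => lt_of_lt_of_le one_pos (le_max_left _ _)
    have hpos : ∀ i ∈ (Finset.univ : Finset (Fin N)), (max 1 ‖σ (w i)‖) ^ (2 * (N - 1)) ≠ 0 :=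
      fun i _ => (pow_pos (hmax i) _).ne'
    have hN1 : (0 : ℝ) < N := by exact_mod_cast hN
    rw [Real.log_pow, Real.log_mul (by positivity) (Finset.prod_ne_zero_iff.mpr hpos),
      Real.log_pow, Real.log_prod hpos] at h5
    simp_rw [Real.log_pow] at h5
    rw [← Finset.mul_sum] at h5
    push_cast [Nat.cast_sub hN] at h5
    linarith
  have h3 : 2 * (S : ℝ) * Real.log q * finrank ℚ L ≤
      finrank ℚ L * (N * Real.log N) + 2 * ((N : ℝ) - 1) * ∑ i, lam (w i) := by
    have hσ : ∀ σ : L →ₐ[ℚ] ℂ, 0 < ‖σ Δ‖ := fun σ =>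
      norm_pos_iff.mpr ((map_ne_zero_iff σ σ.toRingHom.injective).mpr hΔ0)
    have hqr : (0 : ℝ) < q := by exact_mod_cast (by omega : 0 < q)
    have h4 := Real.log_le_log (by push_cast; positivity) h1
    rw [Real.log_pow, Nat.cast_pow, Real.log_pow, Real.log_prod (fun σ _ => (hσ σ).ne')] at h4
    have h5 := Finset.sum_le_sum fun (σ : L →ₐ[ℚ] ℂ) (_ : σ ∈ Finset.univ) => h2 σ
    rw [← Finset.mul_sum, Finset.sum_add_distrib, Finset.sum_const, Finset.card_univ, AlgHom.card,
      nsmul_eq_mul, ← Finset.mul_sum, Finset.sum_comm] at h5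
    calc 2 * (S : ℝ) * Real.log q * finrank ℚ L = 2 * (finrank ℚ L * (S * Real.log q)) := by ring
      _ ≤ 2 * ∑ σ : L →ₐ[ℚ] ℂ, Real.log ‖σ Δ‖ := by linarith
      _ ≤ _ := h5
  have hsb := sum_bound t ht e N
  rw [← hS] at hsb
  have hsb' : ((N : ℝ) - e) * ((N : ℝ) - e - 2 * t) ≤ 2 * t * S := by
    have h4 : ((N - e : ℕ) : ℝ) = (N : ℝ) - e := by rw [Nat.cast_sub he]
    rw [← h4]
    exact_mod_cast hsb
  have hN1 : (0 : ℝ) < N := by exact_mod_cast hN
  have hp1 : (1 : ℝ) < q := by exact_mod_cast hq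
  have hlogq : 0 < Real.log q := Real.log_pos hp1
  have hfr : (0 : ℝ) < finrank ℚ L := by exact_mod_cast finrank_pos (R := ℚ) (M := L)
  have hsum : 0 ≤ ∑ i, lam (w i) := Finset.sum_nonneg fun _ _ => lam_nonneg _
  have ht0 : (0:ℝ) < t := by exact_mod_cast ht
  calc (finrank ℚ L : ℝ) * (((N : ℝ) - e) * ((N : ℝ) - e - 2 * t) * Real.log q)
      = ((N : ℝ) - e) * ((N : ℝ) - e - 2 * t) * (Real.log q * finrank ℚ L) := by ring
    _ ≤ 2 * t * S * (Real.log q * finrank ℚ L) :=
        mul_le_mul_of_nonneg_right hsb' (by positivity)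
    _ = t * (2 * S * Real.log q * finrank ℚ L) := by ring
    _ ≤ t * (finrank ℚ L * (N * Real.log N) + 2 * ((N : ℝ) - 1) * ∑ i, lam (w i)) :=
        mul_le_mul_of_nonneg_left h3 ht0.le
    _ ≤ t * (N * (finrank ℚ L * Real.log N + 2 * ∑ i, lam (w i))) := by
        apply mul_le_mul_of_nonneg_left _ ht0.le
        nlinarith

end Pool.Agent.V1156.RL
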