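import Mathlib
import Pool.Agent.V1156.RL.Vand

/-!
# Counting conjugates modulo `q`
-/

set_option autoImplicit false

open Polynomial Finset Module

namespace Pool.Agent.V1156.RL

open Pool.Agent.TH53.HR Pool.Agent.TH860.LP

variable {V : ValuationSubring ℂ}

/-- **the zeros that belong to a factor modulo `q`** -/
theorem count_type {ι : Type*} [Fintype ι] (w : ι → V) (q : V) (hq0 : (q : ℂ) ≠ 0)
    (hqm : IsLocalRing.residue V q = 0) (P R B₁ U W B₂ : V[X]) (hPm : P.Monic)
    (hf : ∏ i, (X - C (w i)) = P * R + C q * B₁) (hco : U * P + W * R = 1 + C q * B₂)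
    (G : Finset ι) (hG : ∀ i, ((P.eval (w i) : V) : ℂ) / q ∈ V → i ∈ G) :
    P.natDegree ≤ G.card := by
  classical
  set ρ := IsLocalRing.residue V with hρ
  have hfk : (P.map ρ) * (R.map ρ) = ∏ i, (X - C (ρ (w i))) := by
    have h1 := congrArg (Polynomial.map ρ) hf
    rw [Polynomial.map_add, Polynomial.map_mul, Polynomial.map_mul, Polynomial.map_C, hqm, C_0,
      zero_mul, add_zero, Polynomial.map_prod] at h1
    rw [← h1]
    refine Finset.prod_congr rfl fun i _ => ?_
    rw [Polynomial.map_sub, Polynomial.map_X, Polynomial.map_C]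
  have hcok : (U.map ρ) * (P.map ρ) + (W.map ρ) * (R.map ρ) = 1 := by
    have h1 := congrArg (Polynomial.map ρ) hco
    rw [Polynomial.map_add, Polynomial.map_mul, Polynomial.map_mul, Polynomial.map_add,
      Polynomial.map_mul, Polynomial.map_C, hqm, C_0, zero_mul, add_zero, Polynomial.map_one] at h1
    exact h1
  have hdvd : P.map ρ ∣ (∏ i ∈ G, (X - C (ρ (w i)))) := by
    have h1 : P.map ρ ∣ (∏ i ∈ G, (X - C (ρ (w i)))) * ∏ i ∈ Gᶜ, (X - C (ρ (w i))) := by
      rw [Finset.prod_mul_prod_compl]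
      exact ⟨R.map ρ, hfk.symm⟩
    apply IsCoprime.dvd_of_dvd_mul_right _ h1
    apply IsCoprime.prod_right
    intro i hi
    rw [Finset.mem_compl] at hi
    rw [isCoprime_comm, (irreducible_X_sub_C _).coprime_iff_not_dvd, dvd_iff_isRoot]
    intro h
    apply hi
    apply hG
    -- `R` does not vanish
    have hP0 : ρ (P.eval (w i)) = 0 := by
      rw [← Polynomial.eval_map_apply]
      exact h
    have hR0 : ρ (R.eval (w i)) ≠ 0 := by
      intro h0
      have h2 := congrArg (Polynomial.eval (ρ (w i))) hcok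
      rw [eval_add, eval_mul, eval_mul, eval_one, Polynomial.eval_map_apply,
        Polynomial.eval_map_apply, Polynomial.eval_map_apply, Polynomial.eval_map_apply, hP0, h0,
        mul_zero, mul_zero, add_zero] at h2
      exact zero_ne_one h2
    have hu : IsUnit (R.eval (w i)) := by
      by_contra h1
      exact hR0 ((IsLocalRing.residue_eq_zero_iff _).mpr h1)
    obtain ⟨u, hu⟩ := hu
    have h3 := congrArg (Polynomial.eval (w i)) hf
    rw [eval_prod, Finset.prod_eq_zero (Finset.mem_univ i) (by simp), eval_add, eval_mul, eval_mul,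
      eval_C] at h3
    have h4 : P.eval (w i) = q * (-(B₁.eval (w i)) * ((u⁻¹ : Vˣ) : V)) := by
      have h5 : R.eval (w i) * ((u⁻¹ : Vˣ) : V) = 1 := by rw [← hu]; exact u.mul_inv
      calc P.eval (w i) = P.eval (w i) * (R.eval (w i) * ((u⁻¹ : Vˣ) : V)) := by rw [h5, mul_one]
        _ = (P.eval (w i) * R.eval (w i)) * ((u⁻¹ : Vˣ) : V) := by ring
        _ = (-(q * B₁.eval (w i))) * ((u⁻¹ : Vˣ) : V) := by
            rw [eq_neg_of_add_eq_zero_left h3.symm]
        _ = _ := by ring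
    rw [h4]
    set c : V := -(B₁.eval (w i)) * ((u⁻¹ : Vˣ) : V) with hc
    have h6 : ((q * c : V) : ℂ) / q = (c : ℂ) := by
      have h7 : ((q * c : V) : ℂ) = (q : ℂ) * (c : ℂ) := map_mul V.subtype q c
      rw [h7, mul_div_cancel_left₀ _ hq0]
    rw [h6]
    exact c.2
  have h2 := natDegree_le_of_dvd hdvd (Finset.prod_ne_zero_iff.mpr fun i _ => X_sub_C_ne_zero _)
  rw [natDegree_prod _ _ fun i _ => X_sub_C_ne_zero _] at h2
  simp only [natDegree_X_sub_C, Finset.sum_const, smul_eq_mul, mul_one] at h2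
  rwa [hPm.natDegree_map] at h2

variable {F : IntermediateField ℚ ℂ}

/-- lifting to `V` -/
lemma exists_V (hV : ∀ z : ℂ, IsIntegral ℤ z → z ∈ V) {Q : F[X]} (hQ : IntC Q) :
    ∃ Q' : V[X], Q'.map V.subtype = Q.map (algebraMap F ℂ) := by
  have h1 : Q.map (algebraMap F ℂ) ∈ Polynomial.lifts V.subtype := by
    rw [Polynomial.lifts_iff_coeff_lifts]
    intro n
    rw [coeff_map]
    exact ⟨⟨_, hV _ (hQ n)⟩, rfl⟩
  exact (Polynomial.mem_lifts _).mp h1

/-- **the fibres of the `m`-th power on the conjugates have the same size** -/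
theorem fibre_le {α : ℂ} (hα : IsIntegral F α) (R : Finset ℂ)
    (hR : ∀ z, z ∈ R ↔ aeval z (minpoly F α) = 0) (m : ℕ) (z z' : ℂ) (hz : z ∈ R) (hz' : z' ∈ R) :
    (R.filter fun u => u ^ m = z' ^ m).card ≤ (R.filter fun u => u ^ m = z ^ m).card := by
  classical
  set Ω := algebraicClosure F ℂ with hΩ
  have hN : Normal F Ω := IsAlgClosure.normal F Ω
  have hmem : ∀ u ∈ R, u ∈ Ω := by
    intro u hu
    rw [mem_algebraicClosure_iff]
    exact ⟨minpoly F α, minpoly.ne_zero hα, (hR u).mp hu⟩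
  have hirr : Irreducible (minpoly F α) := minpoly.irreducible hα
  have hmin : ∀ u ∈ R, minpoly F u = minpoly F α := by
    intro u hu
    exact (minpoly.eq_of_irreducible_of_monic hirr ((hR u).mp hu) (minpoly.monic hα)).symm
  set x : Ω := ⟨z, hmem z hz⟩ with hx
  set x' : Ω := ⟨z', hmem z' hz'⟩ with hx'
  have hxa : IsAlgebraic F x' := Algebra.IsAlgebraic.isAlgebraic x'
  have hmx : ∀ (u : ℂ) (hu : u ∈ R), minpoly F (⟨u, hmem u hu⟩ : Ω) = minpoly F α := by
    intro u hu
    rw [← hmin u hu]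
    exact (minpoly.algebraMap_eq (algebraMap Ω ℂ).injective (⟨u, hmem u hu⟩ : Ω)).symm
  obtain ⟨σ, hσ⟩ : ∃ σ : Ω ≃ₐ[F] Ω, σ x' = x := by
    have h1 : minpoly F x = minpoly F x' := by rw [hx, hx', hmx z hz, hmx z' hz']
    obtain ⟨σ, hσ⟩ := Normal.minpoly_eq_iff_mem_orbit Ω |>.mp h1
    exact ⟨σ, hσ⟩
  refine Finset.card_le_card_of_injOn
    (fun u => if hu : u ∈ R then ((σ ⟨u, hmem u hu⟩ : Ω) : ℂ) else 0) ?_ ?_
  · intro u hu
    rw [Finset.mem_coe, Finset.mem_filter] at hu ⊢
    dsimp only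
    rw [dif_pos hu.1]
    constructor
    · rw [hR]
      have h1 : aeval ((Ω.val.comp σ.toAlgHom) ⟨u, hmem u hu.1⟩) (minpoly F α) =
          (Ω.val.comp σ.toAlgHom) (aeval (⟨u, hmem u hu.1⟩ : Ω) (minpoly F α)) :=
        aeval_algHom_apply (Ω.val.comp σ.toAlgHom) _ _
      rw [← hmx u hu.1, minpoly.aeval, map_zero, hmx u hu.1] at h1
      exact h1
    · have h1 : (⟨u, hmem u hu.1⟩ : Ω) ^ m = x' ^ m := Subtype.ext hu.2
      have h2 := congrArg σ h1
      rw [map_pow, map_pow, hσ] at h2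
      exact congrArg (algebraMap Ω ℂ) h2
  · intro u hu u' hu' h
    rw [Finset.mem_coe, Finset.mem_filter] at hu hu'
    dsimp only at h
    rw [dif_pos hu.1, dif_pos hu'.1] at h
    have h1 := σ.injective (Subtype.ext h)
    exact congrArg Subtype.val h1

/-- the powers and the fibres -/
theorem fibre_card {α : ℂ} (hα : IsIntegral F α) (R : Finset ℂ)
    (hR : ∀ z, z ∈ R ↔ aeval z (minpoly F α) = 0) (m : ℕ) :
    ∃ c : ℕ, 0 < c ∧ (∀ z ∈ R, (R.filter fun u => u ^ m = z ^ m).card = c) ∧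
      (R.image fun z => z ^ m).card * c = R.card := by
  classical
  have hαR : α ∈ R := (hR α).mpr (minpoly.aeval F α)
  set c := (R.filter fun u => u ^ m = α ^ m).card with hc
  have h1 : ∀ z ∈ R, (R.filter fun u => u ^ m = z ^ m).card = c := fun z hz =>
    le_antisymm (fibre_le hα R hR m α z hαR hz) (fibre_le hα R hR m z α hz hαR)
  refine ⟨c, Finset.card_pos.mpr ⟨α, Finset.mem_filter.mpr ⟨hαR, rfl⟩⟩, h1, ?_⟩
  rw [Finset.card_eq_sum_card_image (fun z => z ^ m) R, Finset.sum_congr rfl (g := fun _ => c),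
    Finset.sum_const, smul_eq_mul]
  intro y hy
  obtain ⟨z, hz, rfl⟩ := Finset.mem_image.mp hy
  exact h1 z hz

end Pool.Agent.V1156.RL
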