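import Mathlib
import Pool.Agent.V1156.RL.Count

/-!
# The relative inequality for a factor modulo `q`
-/

set_option autoImplicit false

open Polynomial Finset Module IntermediateField

namespace Pool.Agent.V1156.RL

open Pool.Agent.TH53.HR Pool.Agent.TH53.SL Pool.Agent.H388SL Pool.Agent.H389R3.LR
  Pool.Agent.H389R3.LP Pool.Agent.TH860.LP

variable {F : IntermediateField ℚ ℂ}

/-- the minimal polynomial of `α` over `F` is `P R` modulo `q`, where `P` and `R` are coprime modulo
`q`, `P` is monic of degree `a`, and `P` divides `Q` modulo `q` -/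
def DividesFactor (F : IntermediateField ℚ ℂ) (α : ℂ) (q a : ℕ) (Q : F[X]) : Prop :=
  ∃ P R U W A B₁ B₂ B₃ : F[X], (IntC P ∧ IntC R ∧ IntC U ∧ IntC W ∧ IntC A ∧ IntC B₁ ∧ IntC B₂ ∧
    IntC B₃) ∧ P.Monic ∧ P.natDegree = a ∧
    minpoly F α = P * R + C (q : F) * B₁ ∧ U * P + W * R = 1 + C (q : F) * B₂ ∧
    Q = A * P + C (q : F) * B₃

/-- values at the conjugates: `G(u^m)` is a multiple of `Q(u)` up to multiples of `q` -/
def ValueModQ (F : IntermediateField ℚ ℂ) (α : ℂ) (q m : ℕ) (Q : F[X]) (G : ℂ[X]) : Prop :=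
  ∀ u : ℂ, u ∈ (minpoly F α).rootSet ℂ → ∃ y : ℂ, IsIntegral ℤ y ∧
    G.eval (u ^ m) = aeval u Q + q * y

/-- the number of conjugates over valuation rings -/
theorem conj_count {α : ℂ} (hα : IsIntegral ℤ α) {q : ℕ} (hq : 0 < q)
    (Rt : Finset ℂ) (hRt : (minpoly F α).map (algebraMap F ℂ) = ∏ z ∈ Rt, (X - C z))
    {P R U W B₁ B₂ : F[X]} (hP : IntC P) (hR : IntC R) (hU : IntC U) (hW : IntC W)
    (hB₁ : IntC B₁) (hB₂ : IntC B₂) (hPm : P.Monic)
    (hf : minpoly F α = P * R + C (q : F) * B₁) (hco : U * P + W * R = 1 + C (q : F) * B₂)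
    (V : ValuationSubring ℂ) (hV : ∀ z : ℂ, IsIntegral ℤ z → z ∈ V) (hinv : (q : ℂ)⁻¹ ∉ V)
    (Gd : Finset ℂ) (hGd : ∀ z ∈ Rt, aeval z P / (q : ℂ) ∈ V → z ∈ Gd) :
    P.natDegree ≤ (Rt ∩ Gd).card := by
  classical
  have hq0 : (q : ℂ) ≠ 0 := by exact_mod_cast hq.ne'
  have hqV : (q : ℂ) ∈ V := hV _ (by
    simpa using isIntegral_algebraMap (R := ℤ) (A := ℂ) (x := (q : ℤ)))
  obtain ⟨P', hP'⟩ := exists_V hV hP
  obtain ⟨R', hR'⟩ := exists_V hV hR
  obtain ⟨U', hU'⟩ := exists_V hV hU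
  obtain ⟨W', hW'⟩ := exists_V hV hW
  obtain ⟨B₁', hB₁'⟩ := exists_V hV hB₁
  obtain ⟨B₂', hB₂'⟩ := exists_V hV hB₂
  have hinjV : Function.Injective V.subtype := V.subtype_injective
  have hroot : ∀ z ∈ Rt, aeval z (minpoly F α) = 0 := by
    intro z hz
    rw [← eval_map_algebraMap, hRt, eval_prod]
    exact Finset.prod_eq_zero hz (by simp)
  have hmemR : ∀ z ∈ Rt, z ∈ (minpoly F α).rootSet ℂ := fun z hz =>
    mem_rootSet.mpr ⟨minpoly.ne_zero hα.tower_top, hroot z hz⟩
  have hintR : ∀ z ∈ Rt, IsIntegral ℤ z := fun z hz => root_integral hα (hmemR z hz)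
  let w : ↥Rt → V := fun z => ⟨(z : ℂ), hV _ (hintR z z.2)⟩
  set q' : V := ⟨(q : ℂ), hqV⟩ with hq'
  have hCq : ((C q' : V[X])).map V.subtype = (C (q : F) : F[X]).map (algebraMap F ℂ) := by
    rw [Polynomial.map_C, Polynomial.map_C]
    simp [hq']
  have hf' : ∏ i, (X - C (w i)) = P' * R' + C q' * B₁' := by
    apply Polynomial.map_injective V.subtype hinjV
    rw [Polynomial.map_add, Polynomial.map_mul, Polynomial.map_mul, hP', hR', hB₁', hCq,
      ← Polynomial.map_mul, ← Polynomial.map_mul, ← Polynomial.map_add, ← hf, hRt,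
      Polynomial.map_prod, ← Finset.prod_coe_sort Rt (fun z => (X - C z : ℂ[X]))]
    refine Finset.prod_congr rfl fun i _ => ?_
    rw [Polynomial.map_sub, Polynomial.map_X, Polynomial.map_C]
    rfl
  have hco' : U' * P' + W' * R' = 1 + C q' * B₂' := by
    apply Polynomial.map_injective V.subtype hinjV
    rw [Polynomial.map_add, Polynomial.map_mul, Polynomial.map_mul, Polynomial.map_add,
      Polynomial.map_mul, Polynomial.map_one, hP', hR', hB₂', hU', hW', hCq,
      ← Polynomial.map_mul, ← Polynomial.map_mul, ← Polynomial.map_mul, ← Polynomial.map_add, hco,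
      Polynomial.map_add, Polynomial.map_one]
  have hP'm : P'.Monic := by
    apply Polynomial.monic_of_injective hinjV
    rw [hP']
    exact hPm.map _
  have hP'd : P'.natDegree = P.natDegree := by
    have h1 := congrArg Polynomial.natDegree hP'
    rw [natDegree_map_eq_of_injective hinjV, hPm.natDegree_map] at h1
    exact h1
  have hqm : IsLocalRing.residue V q' = 0 := by
    rw [IsLocalRing.residue_eq_zero_iff, IsLocalRing.mem_maximalIdeal, mem_nonunits_iff]
    rintro ⟨u, hu⟩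
    apply hinv
    have h1 : ((u⁻¹ : Vˣ) : V) * q' = 1 := by rw [← hu]; exact u.inv_mul
    have h2 : ((((u⁻¹ : Vˣ) : V) : ℂ)) * (q : ℂ) = 1 := congrArg V.subtype h1
    rw [← eq_inv_of_mul_eq_one_left h2]
    exact ((u⁻¹ : Vˣ) : V).2
  have heval : ∀ i, ((P'.eval (w i) : V) : ℂ) = aeval (i : ℂ) P := by
    intro i
    have h1 : (P'.map V.subtype).eval (V.subtype (w i)) = V.subtype (P'.eval (w i)) :=
      Polynomial.eval_map_apply _ _
    rw [hP', eval_map_algebraMap] at h1
    exact h1.symm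
  have h := count_type w q' hq0 hqm P' R' B₁' U' W' B₂' hP'm hf' hco'
    (Finset.univ.filter fun i : ↥Rt => (i : ℂ) ∈ Gd) (fun i hi => by
      rw [heval] at hi
      exact Finset.mem_filter.mpr ⟨Finset.mem_univ _, hGd i i.2 hi⟩)
  rw [hP'd] at h
  refine h.trans (le_of_eq ?_)
  refine Finset.card_bij (fun i _ => (i : ℂ)) ?_ ?_ ?_
  · intro i hi
    exact Finset.mem_inter.mpr ⟨i.2, (Finset.mem_filter.mp hi).2⟩
  · intro i _ j _ hij
    exact Subtype.ext hij
  · intro z hz
    rw [Finset.mem_inter] at hz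
    exact ⟨⟨z, hz.1⟩, Finset.mem_filter.mpr ⟨Finset.mem_univ _, hz.2⟩, rfl⟩

/-- **the relative inequality for a factor modulo `q`** -/
theorem rel_factor {α : ℂ} (hα : IsIntegral ℤ α) {q m a D : ℕ} (hq : 1 < q) (hD : 0 < D)
    {Q : F[X]} (hfac : DividesFactor F α q a Q) (G : ℂ[X]) (hGm : G.Monic) (hGd : G.natDegree = D)
    (hGval : ValueModQ F α q m Q G) :
    0 < pz m (minpoly F α) ∧ pz m (minpoly F α) ≤ (minpoly F α).natDegree ∧
    (a : ℝ) * (a * pz m (minpoly F α) - 2 * D * (minpoly F α).natDegree) * Real.log q ≤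
      D * (minpoly F α).natDegree ^ 2 *
        (Real.log (pz m (minpoly F α)) + 2 * (m * (pz m (minpoly F α) * hgt α))) := by
  classical
  obtain ⟨P, R, U, W, A, B₁, B₂, B₃, ⟨hP, hR, hU, hW, hA, hB₁, hB₂, hB₃⟩, hPm, hPd,
    hf, hco, hQ⟩ := hfac
  have hαF : IsIntegral F α := hα.tower_top
  set g := minpoly ℤ α with hg
  -- the conjugates
  set Rt : Finset ℂ := ((minpoly F α).map (algebraMap F ℂ)).roots.toFinset with hRtdef
  have hmap0 : (minpoly F α).map (algebraMap F ℂ) ≠ 0 :=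
    (Polynomial.map_ne_zero_iff (algebraMap F ℂ).injective).mpr (minpoly.ne_zero hαF)
  have hRt : ∀ z, z ∈ Rt ↔ aeval z (minpoly F α) = 0 := by
    intro z
    rw [hRtdef, Multiset.mem_toFinset, mem_roots hmap0, IsRoot.def, eval_map_algebraMap]
  have hnodup : ((minpoly F α).map (algebraMap F ℂ)).roots.Nodup :=
    nodup_roots ((minpoly.irreducible hαF).separable.map)
  have hprod : (minpoly F α).map (algebraMap F ℂ) = ∏ z ∈ Rt, (X - C z) := by
    have h1 := (IsAlgClosed.splits ((minpoly F α).map (algebraMap F ℂ))).eq_prod_roots_of_monic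
      ((minpoly.monic hαF).map _)
    conv_lhs => rw [h1]
    rw [Finset.prod_eq_multiset_prod, hRtdef, Multiset.toFinset_val, hnodup.dedup]
  have hRcard : Rt.card = (minpoly F α).natDegree := by
    have h1 := congrArg Polynomial.natDegree hprod
    rw [natDegree_prod_of_monic _ _ (fun z _ => monic_X_sub_C z),
      (minpoly.monic hαF).natDegree_map] at h1
    simp only [natDegree_X_sub_C, Finset.sum_const, smul_eq_mul, mul_one] at h1
    exact h1.symm
  obtain ⟨c, hc0, hcf, hcN⟩ := fibre_card hαF Rt hRt m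
  set T := Rt.image fun z => z ^ m with hT
  have hpz : pz m (minpoly F α) = T.card := by
    unfold pz
    have h1 : ((fun z : ℂ => z ^ m) '' ((minpoly F α).rootSet ℂ)) = (T : Set ℂ) := by
      ext y
      rw [hT, Finset.coe_image, Set.mem_image, Set.mem_image]
      constructor
      · rintro ⟨z, hz, rfl⟩
        exact ⟨z, (hRt z).mpr (mem_rootSet.mp hz).2, rfl⟩
      · rintro ⟨z, hz, rfl⟩
        exact ⟨z, mem_rootSet.mpr ⟨minpoly.ne_zero hαF, (hRt z).mp hz⟩, rfl⟩
    rw [h1, Set.ncard_coe_finset]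
  have hαR : α ∈ Rt := (hRt α).mpr (minpoly.aeval F α)
  have hN : 0 < T.card := Finset.card_pos.mpr ⟨α ^ m, Finset.mem_image.mpr ⟨α, hαR, rfl⟩⟩
  rw [hpz]
  refine ⟨hN, by rw [← hRcard]; exact Finset.card_image_le, ?_⟩
  -- roots of the polynomial over the rational field
  have hroot : ∀ z ∈ Rt, aeval z g = 0 := by
    intro z hz
    have h1 : minpoly F α ∣ g.map (algebraMap ℤ F) := by
      apply minpoly.dvd
      rw [aeval_map_algebraMap]
      exact minpoly.aeval ℤ α
    have h2 := (hRt z).mp hz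
    obtain ⟨A, hA⟩ := h1
    have h3 : aeval z (g.map (algebraMap ℤ F)) = 0 := by
      rw [hA, map_mul, h2, zero_mul]
    rwa [aeval_map_algebraMap] at h3
  have hgm : g.Monic := minpoly.monic hα
  set L := IntermediateField.adjoin ℚ (g.rootSet ℂ) with hL
  have hzR : ∀ z ∈ Rt, z ∈ g.rootSet ℂ := fun z hz => mem_rootSet.mpr ⟨hgm.ne_zero, hroot z hz⟩
  have hint : ∀ z ∈ g.rootSet ℂ, IsIntegral ℤ z := fun z hz =>
    ⟨g, hgm, by rw [← Polynomial.aeval_def]; exact (mem_rootSet.mp hz).2⟩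
  have : Finite (g.rootSet ℂ) := (rootSet_finite g ℂ).to_subtype
  have hfin : FiniteDimensional ℚ L := IntermediateField.finiteDimensional_adjoin
    fun z hz => (hint z hz).tower_top
  have : NumberField L := { to_charZero := inferInstance, to_finiteDimensional := hfin }
  let e := T.equivFin.symm
  have hex : ∀ i : Fin T.card, ∃ z ∈ Rt, z ^ m = (e i : ℂ) := by
    intro i
    obtain ⟨z, hz, h2⟩ := Finset.mem_image.mp (e i).2
    exact ⟨z, hz, h2⟩
  choose z hzR' hze using hex
  let z' : Fin T.card → L := fun i => ⟨z i, IntermediateField.subset_adjoin ℚ _ (hzR _ (hzR' i))⟩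
  have hz'z : ∀ i, algebraMap L ℂ (z' i) = z i := fun i => rfl
  have hz'int : ∀ i, IsIntegral ℤ (z' i) := by
    intro i
    have h1 := hint _ (hzR _ (hzR' i))
    rw [← hz'z] at h1
    exact (isIntegral_algebraMap_iff (algebraMap L ℂ).injective).mp h1
  have hmin : ∀ i, minpoly ℤ (z' i) = g := by
    intro i
    have h1 : minpoly ℤ (z i) = minpoly ℤ (z' i) := by
      rw [← hz'z]
      exact minpoly.algebraMap_eq (algebraMap L ℂ).injective (z' i)
    rw [← h1]
    have h2 := minpoly.isIntegrallyClosed_dvd (hint _ (hzR _ (hzR' i))) (hroot _ (hzR' i))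
    have h3 : Associated (minpoly ℤ (z i)) g :=
      (minpoly.irreducible (hint _ (hzR _ (hzR' i)))).associated_of_dvd (minpoly.irreducible hα) h2
    exact eq_of_monic_of_associated (minpoly.monic (hint _ (hzR _ (hzR' i)))) hgm h3
  let φ : L →ₐ[ℚ] ℂ := L.val
  have hφ : ∀ i, φ (z' i ^ m) = e i := by
    intro i
    rw [map_pow]
    exact hze i
  have hinj : Function.Injective fun i => z' i ^ m := by
    intro i j h
    have h1 := congrArg φ h
    simp only [hφ] at h1
    exact e.injective (Subtype.ext h1)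
  -- the number of exceptional powers
  set y₀ := (a + c - 1) / c with hy₀
  have hy₀a : a ≤ c * y₀ := by
    have h1 : a + c - 1 < c * (y₀ + 1) := by
      rw [hy₀]
      exact Nat.lt_mul_div_succ _ hc0
    rw [mul_add] at h1
    omega
  have hkey : ∀ V : ValuationSubring ℂ, (∀ z : ℂ, IsIntegral ℤ z → z ∈ V) → (q : ℂ)⁻¹ ∉ V →
      y₀ ≤ ((Finset.univ : Finset (Fin T.card)).filter
        fun i => ∃ u ∈ Rt, u ^ m = (e i : ℂ) ∧ aeval u P / (q : ℂ) ∈ V).card := by
    intro V hV hinv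
    set Gd := Rt.filter fun u => aeval u P / (q : ℂ) ∈ V with hGddef
    have h1 := conj_count hα (by omega : 0 < q) Rt hprod hP hR hU hW hB₁ hB₂ hPm hf hco V hV hinv
      Gd (fun z hz h => Finset.mem_filter.mpr ⟨hz, h⟩)
    have h2 : Rt ∩ Gd = Gd := Finset.inter_eq_right.mpr (Finset.filter_subset _ _)
    rw [h2, hPd] at h1
    have h3 : Gd.card ≤ c * (Gd.image fun u => u ^ m).card := by
      apply Finset.card_le_mul_card_image
      intro y hy
      obtain ⟨u, hu, rfl⟩ := Finset.mem_image.mp hy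
      rw [← hcf u (Finset.mem_filter.mp hu).1]
      apply Finset.card_le_card
      intro x hx
      rw [Finset.mem_filter] at hx ⊢
      exact ⟨(Finset.mem_filter.mp hx.1).1, hx.2⟩
    have h4 : (Gd.image fun u => u ^ m).card ≤ ((Finset.univ : Finset (Fin T.card)).filter
        fun i => ∃ u ∈ Rt, u ^ m = (e i : ℂ) ∧ aeval u P / (q : ℂ) ∈ V).card := by
      have h5 : (Gd.image fun u => u ^ m) ⊆ (((Finset.univ : Finset (Fin T.card)).filter
        fun i => ∃ u ∈ Rt, u ^ m = (e i : ℂ) ∧ aeval u P / (q : ℂ) ∈ V).image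
          fun i => (e i : ℂ)) := by
        intro y hy
        obtain ⟨u, hu, rfl⟩ := Finset.mem_image.mp hy
        rw [Finset.mem_filter] at hu
        have hyT : u ^ m ∈ T := Finset.mem_image.mpr ⟨u, hu.1, rfl⟩
        refine Finset.mem_image.mpr ⟨e.symm ⟨u ^ m, hyT⟩, ?_, by simp⟩
        rw [Finset.mem_filter]
        exact ⟨Finset.mem_univ _, u, hu.1, by simp, hu.2⟩
      exact (Finset.card_le_card h5).trans Finset.card_image_le
    have h5 : a ≤ c * ((Finset.univ : Finset (Fin T.card)).filter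
        fun i => ∃ u ∈ Rt, u ^ m = (e i : ℂ) ∧ aeval u P / (q : ℂ) ∈ V).card :=
      h1.trans (h3.trans (Nat.mul_le_mul_left _ h4))
    rw [hy₀]
    rw [Nat.div_le_iff_le_mul_add_pred hc0]
    omega
  -- existence of one valuation ring
  obtain ⟨V₀, hV₀, hV₀q⟩ : ∃ V : ValuationSubring ℂ, (∀ z : ℂ, IsIntegral ℤ z → z ∈ V) ∧
      (q : ℂ)⁻¹ ∉ V := by
    by_contra hcon
    push Not at hcon
    have h1 := integral_of_forall ((q : ℂ)⁻¹) hcon
    have h2 : IsIntegral ℤ ((q : ℚ)⁻¹) := by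
      have : algebraMap ℚ ℂ ((q : ℚ)⁻¹) = (q : ℂ)⁻¹ := by simp
      rw [← this] at h1
      exact (isIntegral_algebraMap_iff (algebraMap ℚ ℂ).injective).mp h1
    obtain ⟨n, hn⟩ := IsIntegrallyClosed.isIntegral_iff.mp h2
    have hq0 : (q : ℚ) ≠ 0 := by exact_mod_cast (by omega : q ≠ 0)
    have h3 : (n : ℚ) * q = 1 := by
      have : (n : ℚ) = (q : ℚ)⁻¹ := by rw [← hn]; rfl
      rw [this]; field_simp
    have h4 : n * q = 1 := by exact_mod_cast h3
    have h5 : IsUnit (q : ℤ) := IsUnit.of_mul_eq_one n (by rw [mul_comm]; exact h4)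
    rw [Int.isUnit_iff] at h5
    omega
  have hy₀N : y₀ ≤ T.card := by
    refine (hkey V₀ hV₀ hV₀q).trans ((Finset.card_le_univ _).trans (le_of_eq ?_))
    rw [Fintype.card_fin]
  have hwint : ∀ i, IsIntegral ℤ (φ (z' i ^ m)) := fun i =>
    ((hz'int i).pow m).map (φ.restrictScalars ℤ)
  have hval := vand_int (fun i => φ (z' i ^ m)) hwint G hGm q
    (by omega) (T.card - y₀) (fun V hV hinv => by
      have hk := hkey V hV hinv
      refine ⟨((Finset.univ : Finset (Fin T.card)).filter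
        fun i => ∃ u ∈ Rt, u ^ m = (e i : ℂ) ∧ aeval u P / (q : ℂ) ∈ V)ᶜ, ?_, ?_⟩
      · rw [Finset.card_compl, Fintype.card_fin]
        omega
      · intro i hi
        rw [Finset.notMem_compl, Finset.mem_filter] at hi
        obtain ⟨-, u, hu1, hu2, hu3⟩ := hi
        have hui : IsIntegral ℤ u := hint u (hzR u hu1)
        have hq0 : (q : ℂ) ≠ 0 := by exact_mod_cast (by omega : q ≠ 0)
        obtain ⟨y, hy1, hy2⟩ := hGval u (mem_rootSet.mpr ⟨minpoly.ne_zero hαF, (hRt u).mp hu1⟩)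
        have h1 : G.eval (φ (z' i ^ m)) = aeval u A * aeval u P + q * (aeval u B₃ + y) := by
          rw [hφ, ← hu2, hy2, hQ, map_add, map_mul, map_mul, aeval_C]
          have : algebraMap F ℂ (q : F) = (q : ℂ) := by simp
          rw [this]
          ring
        have h2 : G.eval (φ (z' i ^ m)) / q =
            aeval u A * (aeval u P / q) + (aeval u B₃ + y) := by
          rw [h1]
          field_simp
        rw [h2]
        exact V.add_mem _ _ (V.mul_mem _ _ (hV _ (hA.aeval hui)) hu3)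
          (hV _ ((hB₃.aeval hui).add hy1)))
  rw [hGd] at hval
  have h := core_ineq hN (fun i => z' i ^ m) hinj φ D hD q hq (T.card - y₀) (Nat.sub_le _ _) hval
  have hlam : ∀ i, lam (z' i ^ m) = m * (finrank ℚ L *
      (Real.log (g.map (Int.castRingHom ℂ)).mahlerMeasure / g.natDegree)) := by
    intro i
    rw [lam_pow, lam_root (hz'int i), hmin]
  simp_rw [hlam] at h
  rw [Finset.sum_const, Finset.card_univ, Fintype.card_fin, nsmul_eq_mul] at h
  have hfr : (0 : ℝ) < finrank ℚ L := by exact_mod_cast finrank_pos (R := ℚ) (M := L)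
  have hhgt : Real.log (g.map (Int.castRingHom ℂ)).mahlerMeasure / g.natDegree = hgt α := rfl
  rw [hhgt, Nat.cast_sub hy₀N] at h
  set N : ℝ := (T.card : ℝ) with hNdef
  set y : ℝ := (y₀ : ℝ) with hydef
  have h2 : (finrank ℚ L : ℝ) * (y * (y - 2 * D) * Real.log q) ≤
      finrank ℚ L * (D * (N * (Real.log N + 2 * (m * (N * hgt α))))) := by
    have e1 : N - (N - y) = y := by ring
    rw [e1] at h
    refine h.trans (le_of_eq ?_)
    ring
  have h3 := le_of_mul_le_mul_left h2 hfr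
  have hN1 : (1:ℝ) ≤ N := by rw [hNdef]; exact_mod_cast hN
  have hlogN : 0 ≤ Real.log N := Real.log_nonneg hN1
  have hh0 : 0 ≤ hgt α := by
    have h4 := lam_nonneg (z' ⟨0, hN⟩)
    rw [lam_root (hz'int _), hmin] at h4
    by_contra hcon
    push Not at hcon
    have : (finrank ℚ L : ℝ) * hgt α < 0 := mul_neg_of_pos_of_neg hfr hcon
    linarith [show (finrank ℚ L : ℝ) * hgt α = finrank ℚ L *
      (Real.log (g.map (Int.castRingHom ℂ)).mahlerMeasure / g.natDegree) from rfl]
  have hlogq : 0 < Real.log q := Real.log_pos (by exact_mod_cast hq)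
  have hX : 0 ≤ Real.log N + 2 * (m * (N * hgt α)) := add_nonneg hlogN (mul_nonneg two_pos.le
    (mul_nonneg (Nat.cast_nonneg _) (mul_nonneg (by linarith) hh0)))
  have hd : ((minpoly F α).natDegree : ℝ) = N * c := by
    rw [← hRcard, ← hcN]
    push_cast
    rfl
  have hay : (a : ℝ) ≤ c * y := by rw [hydef]; exact_mod_cast hy₀a
  have hc1 : (0:ℝ) < c := by exact_mod_cast hc0
  have ha0 : (0:ℝ) ≤ a := Nat.cast_nonneg _
  have hD0 : (0:ℝ) < D := by exact_mod_cast hD
  rw [hd]
  have hmono : (a : ℝ) * (a - 2 * D * c) * Real.log q ≤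
      c ^ 2 * (D * (N * (Real.log N + 2 * (m * (N * hgt α))))) := by
    rcases le_or_gt (a : ℝ) (2 * D * c) with hle | hgt'
    · have h4 : (a : ℝ) * (a - 2 * D * c) ≤ 0 :=
        mul_nonpos_of_nonneg_of_nonpos ha0 (by linarith)
      have h5 : (a : ℝ) * (a - 2 * D * c) * Real.log q ≤ 0 :=
        mul_nonpos_of_nonpos_of_nonneg h4 hlogq.le
      exact h5.trans (mul_nonneg (sq_nonneg _) (mul_nonneg hD0.le (mul_nonneg (by linarith) hX)))
    · have h4 : (a : ℝ) * (a - 2 * D * c) ≤ (c * y) * (c * y - 2 * D * c) :=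
        mul_le_mul hay (by linarith) (by linarith) (by linarith)
      have h5 : (a : ℝ) * (a - 2 * D * c) * Real.log q ≤ c ^ 2 * (y * (y - 2 * D) * Real.log q) := by
        have h6 := mul_le_mul_of_nonneg_right h4 hlogq.le
        refine h6.trans (le_of_eq ?_)
        ring
      exact h5.trans (mul_le_mul_of_nonneg_left h3 (by positivity))
  have hfinal := mul_le_mul_of_nonneg_left hmono (by linarith : (0:ℝ) ≤ N)
  refine le_trans (le_of_eq ?_) (hfinal.trans (le_of_eq ?_))
  · ring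
  · ring

/-- polynomials in `X^m` -/
lemma value_comp (F : IntermediateField ℚ ℂ) (α : ℂ) (q m : ℕ) (G : F[X]) :
    ValueModQ F α q m (G.comp (X ^ m)) (G.map (algebraMap F ℂ)) := by
  intro u _
  refine ⟨0, isIntegral_zero, ?_⟩
  rw [eval_map_algebraMap, aeval_comp, map_pow, aeval_X]
  ring

/-- powers with exponent a power of the prime number `p` -/
lemma value_pow {α : ℂ} (hα : IsIntegral ℤ α) {p : ℕ} (hp : p.Prime) (t : ℕ) (H : F[X])
    (hHm : H.Monic) (hH : IntC H) :
    ∃ G : ℂ[X], G.Monic ∧ G.natDegree = H.natDegree ∧ ValueModQ F α p (p ^ t) (H ^ p ^ t) G := by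
  set m := p ^ t with hm
  set D := H.natDegree with hD
  set G : ℂ[X] := X ^ D + ∑ i ∈ Finset.range D, C (((H.coeff i : F) : ℂ) ^ m) * X ^ i with hG
  have hlow : (∑ i ∈ Finset.range D, C (((H.coeff i : F) : ℂ) ^ m) * X ^ i : ℂ[X]).degree < D := by
    refine (degree_sum_le _ _).trans_lt ?_
    rw [Finset.sup_lt_iff (by exact_mod_cast WithBot.bot_lt_coe D)]
    intro i hi
    exact (degree_C_mul_X_pow_le _ _).trans_lt (by exact_mod_cast Finset.mem_range.mp hi)
  have hGm : G.Monic := monic_X_pow_add hlow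
  have hGd : G.natDegree = D := by
    rw [hG]
    rw [natDegree_add_eq_left_of_degree_lt (by rw [degree_X_pow]; exact hlow), natDegree_X_pow]
  refine ⟨G, hGm, hGd, fun z hz => ?_⟩
  have hzi := root_integral hα hz
  have h2 : aeval z H = ∑ i ∈ Finset.range (D + 1), ((H.coeff i : F) : ℂ) * z ^ i := by
    rw [aeval_eq_sum_range]
    refine Finset.sum_congr rfl fun i _ => ?_
    rw [Algebra.smul_def]
    rfl
  obtain ⟨r, hr1, hr2⟩ := sum_pow_mod hp t (Finset.range (D + 1))
    (fun i => ((H.coeff i : F) : ℂ) * z ^ i) (fun i _ => (hH i).mul (hzi.pow i))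
  rw [← h2, ← hm] at hr2
  refine ⟨-r, hr1.neg, ?_⟩
  have h3 : G.eval (z ^ m) =
      ∑ i ∈ Finset.range (D + 1), (((H.coeff i : F) : ℂ) * z ^ i) ^ m := by
    rw [Finset.sum_range_succ, hG]
    simp only [eval_add, eval_pow, eval_X, eval_finsetSum, eval_mul, eval_C]
    have h4 : H.coeff D = 1 := hHm.coeff_natDegree
    rw [h4, add_comm]
    congr 1
    · refine Finset.sum_congr rfl fun i _ => ?_
      rw [mul_pow, ← pow_mul, ← pow_mul, mul_comm m i]
    · push_cast
      rw [one_mul, ← pow_mul, ← pow_mul, mul_comm m D]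
  rw [h3, map_pow, hr2]
  ring

end Pool.Agent.V1156.RL
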